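import Pool.Agent.Helper91_CW.Mods
import Pool.Agent.Helper91_CW.Alg

set_option autoImplicit false
set_option linter.unusedSectionVars false
set_option linter.unusedSimpArgs false

/-!
# Broder's marking argument (module BRO)
-/

namespace Pool.Agent.Helper8_CW

open Equiv Pool.Agent.Helper91_CW

section
variable {V : Type} [Fintype V] [DecidableEq V]

/-- The permutations fixing every point outside `P`. -/
def fixOut (P : Finset V) : Finset (Perm V) :=
  Finset.univ.filter fun σ : Perm V => ∀ z, z ∉ P → σ z = z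

theorem mem_fixOut {P : Finset V} {σ : Perm V} : σ ∈ fixOut P ↔ ∀ z, z ∉ P → σ z = z := by
  simp [fixOut]

theorem uS_def (P : Finset V) : uS P = (((fixOut P).card : ℝ)⁻¹) • ∑ g ∈ fixOut P, pt g := rfl

theorem one_mem_fixOut (P : Finset V) : (1 : Perm V) ∈ fixOut P := by simp [mem_fixOut]

theorem card_fixOut_pos (P : Finset V) : 0 < (fixOut P).card :=
  Finset.card_pos.2 ⟨1, one_mem_fixOut P⟩

theorem fixOut_apply_mem {P : Finset V} {σ : Perm V} (h : σ ∈ fixOut P) {y : V} (hy : σ y ∈ P) :
    y ∈ P := by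
  by_contra hc
  rw [mem_fixOut] at h
  rw [h y hc] at hy
  exact hc hy

theorem fixOut_inv_mem {P : Finset V} {σ : Perm V} (h : σ ∈ fixOut P) {y : V} (hy : y ∈ P) :
    σ⁻¹ y ∈ P := fixOut_apply_mem h (by simpa using hy)

theorem unif_nrm_le {G : Type} [Fintype G] [DecidableEq G] [Group G] (S : Finset G) :
    nrm (unif S) ≤ 1 := by
  unfold unif
  rw [nrm_smul]
  refine (mul_le_mul_of_nonneg_left (nrm_sum_le _ _) (abs_nonneg _)).trans ?_
  simp only [nrm_pt, Finset.sum_const, nsmul_eq_mul, mul_one]
  rw [abs_inv, Nat.abs_cast]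
  by_cases h : (S.card : ℝ) = 0
  · simp [h]
  · rw [inv_mul_cancel₀ h]

theorem uS_nrm_le (P : Finset V) : nrm (uS P) ≤ 1 := unif_nrm_le _

theorem sum_fixOut_insert (P : Finset V) (x : V) (hx : x ∉ P) {M : Type*} [AddCommMonoid M]
    (f : Perm V → M) :
    ∑ σ ∈ fixOut (insert x P), f σ = ∑ τ ∈ fixOut P, ∑ y ∈ insert x P, f (τ * swap x y) := by
  rw [← Finset.sum_product']
  symm
  refine Finset.sum_bij' (fun a _ => a.1 * swap x a.2)
    (fun σ _ => (σ * swap x (σ⁻¹ x), σ⁻¹ x)) ?_ ?_ ?_ ?_ ?_
  · rintro ⟨τ, y⟩ h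
    simp only [Finset.mem_product] at h
    rw [mem_fixOut]
    intro z hz
    have h1 := mem_fixOut.1 h.1
    have hzx : z ≠ x := fun e => hz (e ▸ Finset.mem_insert_self _ _)
    have hzy : z ≠ y := fun e => hz (e ▸ h.2)
    simp only [Perm.mul_apply]
    rw [swap_apply_of_ne_of_ne hzx hzy]
    exact h1 z fun hc => hz (Finset.mem_insert_of_mem hc)
  · intro σ h
    simp only [Finset.mem_product]
    refine ⟨?_, fixOut_inv_mem h (Finset.mem_insert_self _ _)⟩
    rw [mem_fixOut]
    intro z hz
    simp only [Perm.mul_apply]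
    by_cases hzx : z = x
    · subst hzx
      simp
    · by_cases hzy : z = σ⁻¹ x
      · subst hzy
        rw [swap_apply_right]
        have h2 : σ⁻¹ x ∈ insert x P := fixOut_inv_mem h (Finset.mem_insert_self _ _)
        rcases Finset.mem_insert.1 h2 with h3 | h3
        · exact absurd h3 hzx
        · exact absurd h3 hz
      · rw [swap_apply_of_ne_of_ne hzx hzy]
        exact mem_fixOut.1 h z (by simp [hzx, hz])
  · rintro ⟨τ, y⟩ h
    simp only [Finset.mem_product] at h
    have h1 := mem_fixOut.1 h.1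
    have hτx : τ⁻¹ x = x := by
      rw [Perm.inv_eq_iff_eq]
      exact (h1 x hx).symm
    have e : (τ * swap x y)⁻¹ x = y := by
      rw [mul_inv_rev, Perm.mul_apply, hτx, swap_inv, swap_apply_left]
    simp only [e]
    ext1
    · simp only [mul_assoc, swap_mul_self, mul_one]
    · rfl
  · intro σ _
    simp only [mul_assoc, swap_mul_self, mul_one]
  · intro a _
    rfl

theorem card_fixOut_insert (P : Finset V) (x : V) (hx : x ∉ P) :
    (fixOut (insert x P)).card = (fixOut P).card * (P.card + 1) := by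
  have h := sum_fixOut_insert P x hx (fun _ => (1 : ℕ))
  simp only [Finset.sum_const, smul_eq_mul, mul_one, Finset.card_insert_of_notMem hx] at h
  exact h

theorem uS_insert (P : Finset V) (x : V) (hx : x ∉ P) :
    uS (insert x P) =
      uS P * ((((P.card : ℝ) + 1)⁻¹) • ∑ y ∈ insert x P, pt (swap x y)) := by
  rw [uS_def, uS_def, sum_fixOut_insert P x hx, card_fixOut_insert P x hx]
  rw [smul_mul_smul_comm, Finset.sum_mul]
  congr 1
  · push_cast
    rw [mul_inv]
  · refine Finset.sum_congr rfl fun τ _ => ?_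
    rw [Finset.mul_sum]
    exact Finset.sum_congr rfl fun y _ => (pt_mul_pt _ _).symm

/-- `uS P * pt g` in terms of the translated set. -/
theorem uS_mul_pt (P : Finset V) (g : Perm V) :
    uS P * pt g = pt g * uS (P.image (g⁻¹ : Perm V)) := by
  have key : ∀ {M : Type} [AddCommMonoid M] (f : Perm V → M),
      ∑ σ ∈ fixOut P, f (σ * g) = ∑ σ ∈ fixOut (P.image (g⁻¹ : Perm V)), f (g * σ) := by
    intro M _ f
    refine Finset.sum_bij' (fun σ _ => g⁻¹ * σ * g) (fun σ _ => g * σ * g⁻¹) ?_ ?_ ?_ ?_ ?_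
    · intro σ h
      rw [mem_fixOut] at h ⊢
      intro z hz
      have : g z ∉ P := fun hc => hz (Finset.mem_image.2 ⟨g z, hc, by simp⟩)
      simp [h _ this]
    · intro σ h
      rw [mem_fixOut] at h ⊢
      intro z hz
      have : g⁻¹ z ∉ P.image (g⁻¹ : Perm V) := by
        intro hc
        obtain ⟨y, hy, e⟩ := Finset.mem_image.1 hc
        exact hz (g⁻¹.injective e ▸ hy)
      rw [Perm.mul_apply, Perm.mul_apply, h _ this]
      simp
    · intro σ _
      group
    · intro σ _
      group
    · intro σ _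
      congr 1
      group
  have hc : (fixOut P).card = (fixOut (P.image (g⁻¹ : Perm V))).card := by
    have := key (fun _ => (1 : ℕ))
    simpa using this
  rw [uS_def, uS_def, smul_mul_assoc, mul_smul_comm, Finset.sum_mul, Finset.mul_sum, ← hc]
  congr 1
  simp only [pt_mul_pt]
  exact key (fun σ => (pt σ : Alg (Perm V)))

/-- Left translation by an element of `fixOut A` fixes `uS A`. -/
theorem pt_mul_uS {A : Finset V} {g : Perm V} (hg : g ∈ fixOut A) : pt g * uS A = uS A := by
  rw [uS_def, mul_smul_comm, Finset.mul_sum]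
  congr 1
  simp only [pt_mul_pt]
  rw [mem_fixOut] at hg
  refine Finset.sum_bij' (fun σ _ => g * σ) (fun σ _ => g⁻¹ * σ) ?_ ?_ ?_ ?_ ?_
  · intro σ h
    rw [mem_fixOut] at h ⊢
    intro z hz
    simp [h z hz, hg z hz]
  · intro σ h
    rw [mem_fixOut] at h ⊢
    intro z hz
    rw [Perm.mul_apply, h z hz, Perm.inv_eq_iff_eq]
    exact (hg z hz).symm
  · intro σ _
    group
  · intro σ _
    group
  · intro σ _
    rfl

theorem swap_mem_fixOut {A : Finset V} {a b : V} (ha : a ∈ A) (hb : b ∈ A) :
    swap a b ∈ fixOut A := by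
  rw [mem_fixOut]
  intro z hz
  exact swap_apply_of_ne_of_ne (fun e => hz (e ▸ ha)) (fun e => hz (e ▸ hb))

/-- Broder's shuffle on the set `A`. -/
noncomputable def broA (A : Finset V) : Alg (Perm V) :=
  (((A.card : ℝ) ^ 2)⁻¹) • ∑ w ∈ A, ∑ w' ∈ A, pt (swap w w')

theorem bro_main (A : Finset V) (hA : 0 < A.card) (t : ℕ) :
    ∀ P : Finset V, P.Nonempty → P ⊆ A →
      nrm (uS P * broA A ^ t - uS A) ≤
        2 * ((A.card : ℝ) - 1) * (((A.card : ℝ) - P.card) / P.card) *
          (1 - 1 / (A.card : ℝ)) ^ t := by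
  have hN : (0 : ℝ) < A.card := by exact_mod_cast hA
  have hN1 : (1 : ℝ) ≤ A.card := by exact_mod_cast hA
  have hq : 0 ≤ 1 - 1 / (A.card : ℝ) := by
    rw [sub_nonneg, div_le_one hN]; exact hN1
  induction t with
  | zero =>
    intro P hP hPA
    simp only [pow_zero, mul_one]
    have hm : 0 < P.card := Finset.card_pos.2 hP
    have hm' : (0 : ℝ) < P.card := by exact_mod_cast hm
    by_cases hPe : P = A
    · subst hPe
      simp
    · have hlt : P.card < A.card := by
        refine lt_of_le_of_ne (Finset.card_le_card hPA) fun h => hPe ?_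
        exact Finset.eq_of_subset_of_card_le hPA h.ge
      have h1 : (P.card : ℝ) + 1 ≤ A.card := by exact_mod_cast hlt
      have h2 : nrm (uS P - uS A) ≤ 2 := by
        refine (nrm_sub_le _ _).trans ?_
        linarith [uS_nrm_le P, uS_nrm_le A]
      refine h2.trans ?_
      have h3 : 1 ≤ ((A.card : ℝ) - 1) * (((A.card : ℝ) - P.card) / P.card) := by
        rw [← mul_div_assoc, one_le_div hm']
        nlinarith
      nlinarith
  | succ t ih =>
    intro P hP hPA
    set N : ℝ := (A.card : ℝ) with hNdef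
    set m : ℝ := (P.card : ℝ) with hmdef
    have hm : 0 < P.card := Finset.card_pos.2 hP
    have hm0 : (0 : ℝ) < m := by rw [hmdef]; exact_mod_cast hm
    have hmN : m ≤ N := by rw [hmdef, hNdef]; exact_mod_cast Finset.card_le_card hPA
    set T := broA A ^ t with hT
    set e : ℝ → ℝ := fun k => 2 * (N - 1) * ((N - k) / k) * (1 - 1 / N) ^ t with he
    -- a single pair
    have hpair : ∀ w ∈ A, ∀ w' ∈ A, nrm (uS P * pt (swap w w') * T - uS A) ≤ e m := by
      intro w hw w' hw'
      have h1 : uS P * pt (swap w w') * T - uS A =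
          pt (swap w w') * (uS (P.image ((swap w w')⁻¹ : Perm V)) * T - uS A) := by
        rw [mul_sub, pt_mul_uS (swap_mem_fixOut hw hw'), uS_mul_pt, mul_assoc]
      rw [h1, nrm_pt_mul]
      have hc : (P.image ((swap w w')⁻¹ : Perm V)).card = P.card :=
        Finset.card_image_of_injective _ ((swap w w')⁻¹ : Perm V).injective
      have h2 := ih (P.image ((swap w w')⁻¹ : Perm V)) (hP.image _) ?_
      · rw [hc] at h2
        exact h2
      · intro z hz
        obtain ⟨y, hy, rfl⟩ := Finset.mem_image.1 hz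
        rw [swap_inv]
        by_cases hyw : y = w
        · subst hyw; rw [swap_apply_left]; exact hw'
        · by_cases hyw' : y = w'
          · subst hyw'; rw [swap_apply_right]; exact hw
          · rw [swap_apply_of_ne_of_ne hyw hyw']; exact hPA hy
    -- expansion
    have hexp : uS P * broA A ^ (t + 1) - uS A =
        ((N ^ 2)⁻¹) • ∑ w' ∈ A, ∑ w ∈ A, (uS P * pt (swap w' w) * T - uS A) := by
      have hNN : N ^ 2 ≠ 0 := by positivity
      have h1 : uS P * broA A ^ (t + 1) =
          ((N ^ 2)⁻¹) • ∑ w' ∈ A, ∑ w ∈ A, (uS P * pt (swap w' w) * T) := by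
        rw [pow_succ', ← mul_assoc, ← hT]
        change uS P * ((((A.card : ℝ) ^ 2)⁻¹) • ∑ w ∈ A, ∑ w' ∈ A, pt (swap w w')) * T = _
        rw [mul_smul_comm, smul_mul_assoc]
        congr 1
        rw [Finset.mul_sum, Finset.sum_mul]
        refine Finset.sum_congr rfl fun w _ => ?_
        rw [Finset.mul_sum, Finset.sum_mul]
      have h2 : uS A = ((N ^ 2)⁻¹) • ∑ w' ∈ A, ∑ w ∈ A, uS A := by
        rw [Finset.sum_const, Finset.sum_const, ← Nat.cast_smul_eq_nsmul ℝ,
          ← Nat.cast_smul_eq_nsmul ℝ, smul_smul, smul_smul]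
        rw [show ((N ^ 2)⁻¹ * (A.card : ℝ) * (A.card : ℝ)) = 1 by
          rw [← hNdef]; field_simp, one_smul]
      conv_lhs => rw [h1, h2]
      rw [← smul_sub, ← Finset.sum_sub_distrib]
      congr 1
      refine Finset.sum_congr rfl fun w' _ => ?_
      rw [← Finset.sum_sub_distrib]
    -- the bound for a fixed w' in P
    have hin : ∀ w' ∈ P, nrm (∑ w ∈ A, (uS P * pt (swap w' w) * T - uS A)) ≤ N * e m := by
      intro w' hw'
      refine (nrm_sum_le _ _).trans ?_
      refine (Finset.sum_le_sum fun w hw => hpair w' (hPA hw') w hw).trans ?_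
      rw [Finset.sum_const, nsmul_eq_mul]
    have hout : ∀ w' ∈ A \ P, nrm (∑ w ∈ A, (uS P * pt (swap w' w) * T - uS A)) ≤
        (m + 1) * e (m + 1) + (N - m - 1) * e m := by
      intro w' hw'
      obtain ⟨hwA, hwP⟩ := Finset.mem_sdiff.1 hw'
      have hsub : insert w' P ⊆ A := Finset.insert_subset hwA hPA
      rw [← Finset.sum_sdiff hsub, add_comm]
      refine (nrm_add_le _ _).trans (add_le_add ?_ ?_)
      · have h1 : ∑ w ∈ insert w' P, (uS P * pt (swap w' w) * T - uS A) =
            (m + 1) • (uS (insert w' P) * T - uS A) := by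
          rw [Finset.sum_sub_distrib, smul_sub, ← Finset.sum_mul, ← Finset.mul_sum]
          congr 1
          · rw [uS_insert P w' hwP, mul_smul_comm, smul_mul_assoc, smul_smul,
              mul_inv_cancel₀ (by positivity), one_smul]
          · rw [Finset.sum_const, Finset.card_insert_of_notMem hwP, ← Nat.cast_smul_eq_nsmul ℝ]
            push_cast
            rfl
        rw [h1, nrm_smul, abs_of_pos (by positivity)]
        refine mul_le_mul_of_nonneg_left ?_ (by positivity)
        have h2 := ih (insert w' P) (Finset.insert_nonempty _ _) hsub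
        rw [Finset.card_insert_of_notMem hwP] at h2
        push_cast at h2
        exact h2
      · refine (nrm_sum_le _ _).trans ?_
        refine (Finset.sum_le_sum fun w hw =>
          hpair w' hwA w (Finset.mem_sdiff.1 hw).1).trans ?_
        rw [Finset.sum_const, nsmul_eq_mul, Finset.card_sdiff_of_subset hsub,
          Finset.card_insert_of_notMem hwP, Nat.cast_sub]
        · push_cast
          rw [sub_add_eq_sub_sub]
        · have := Finset.card_le_card hsub
          rwa [Finset.card_insert_of_notMem hwP] at this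
    rw [hexp, nrm_smul, abs_of_pos (by positivity)]
    have hsum : nrm (∑ w' ∈ A, ∑ w ∈ A, (uS P * pt (swap w' w) * T - uS A)) ≤
        (N - m) * ((m + 1) * e (m + 1) + (N - m - 1) * e m) + m * (N * e m) := by
      rw [← Finset.sum_sdiff hPA]
      refine (nrm_add_le _ _).trans (add_le_add ?_ ?_)
      · refine (nrm_sum_le _ _).trans ((Finset.sum_le_sum hout).trans ?_)
        rw [Finset.sum_const, nsmul_eq_mul, Finset.card_sdiff_of_subset hPA,
          Nat.cast_sub (Finset.card_le_card hPA)]
      · refine (nrm_sum_le _ _).trans ((Finset.sum_le_sum hin).trans ?_)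
        rw [Finset.sum_const, nsmul_eq_mul]
    refine (mul_le_mul_of_nonneg_left hsum (by positivity)).trans (le_of_eq ?_)
    simp only [he]
    have hm1 : m + 1 ≠ 0 := by positivity
    rw [pow_succ (1 - 1 / N) t]
    generalize (1 - 1 / N) ^ t = Q
    field_simp
    ring

end

section
variable (H B : Type) [Fintype H] [DecidableEq H] [Fintype B] [DecidableEq B]

/-- The bulk. -/
def bulk : Finset (H ⊕ B) := Finset.univ.map ⟨Sum.inr, Sum.inr_injective⟩

theorem mem_bulk {z : H ⊕ B} : z ∈ bulk H B ↔ ∃ b, Sum.inr b = z := by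
  simp [bulk]

theorem bro_eq : bro H B = broA (bulk H B) := by
  unfold bro broA bulk
  simp only [Finset.card_map, Finset.sum_map, Function.Embedding.coeFn_mk, Finset.card_univ]

theorem fixOut_bulk : fixOut (bulk H B) =
    Finset.univ.image (fun τ : Perm B => Perm.sumCongr (1 : Perm H) τ) := by
  ext σ
  rw [mem_fixOut]
  simp only [Finset.mem_image, Finset.mem_univ, true_and]
  constructor
  · intro h
    have hl : ∀ x : H, σ (Sum.inl x) = Sum.inl x := fun x => h _ (by simp [mem_bulk])
    have hmem : Set.MapsTo σ (Set.range Sum.inl) (Set.range Sum.inl) := by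
      rintro _ ⟨x, rfl⟩
      exact ⟨x, (hl x).symm⟩
    have h2 : σ ∈ (Perm.sumCongrHom H B).range :=
      Perm.mem_sumCongrHom_range_of_perm_mapsTo_inl hmem
    obtain ⟨⟨τ1, τ2⟩, rfl⟩ := h2
    refine ⟨τ2, ?_⟩
    have : τ1 = 1 := by
      ext x
      have := hl x
      simpa using this
    simp [this]
  · rintro ⟨τ, rfl⟩ z hz
    rcases z with x | b
    · simp
    · exact absurd ((mem_bulk H B).2 ⟨b, rfl⟩) hz

theorem EB_eq : EB H B = uS (bulk H B) := by
  have hinj : Function.Injective (fun τ : Perm B => Perm.sumCongr (1 : Perm H) τ) := by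
    intro τ τ' h
    ext b
    have := congrArg (fun σ : Perm (H ⊕ B) => σ (Sum.inr b)) h
    simpa using this
  rw [uS_def, fixOut_bulk, Finset.card_image_of_injective _ hinj,
    Finset.sum_image (fun _ _ _ _ h => hinj h)]
  rw [Finset.card_univ, Fintype.card_perm]
  rfl

theorem uS_singleton {V : Type} [Fintype V] [DecidableEq V] (x : V) : uS ({x} : Finset V) = 1 := by
  have h : fixOut ({x} : Finset V) = {1} := by
    ext σ
    rw [mem_fixOut]
    simp only [Finset.mem_singleton]
    constructor
    · intro h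
      ext z
      by_cases hz : z = x
      · subst hz
        by_contra hc
        have h1 : σ (σ z) = σ z := h _ hc
        exact hc (σ.injective h1)
      · exact h z hz
    · rintro rfl z _
      rfl
  rw [uS_def, h]
  simp

end

theorem bro_thm : BroStatement := by
  intro H B _ _ _ _ hB k
  obtain ⟨b⟩ : Nonempty B := Fintype.card_pos_iff.1 hB
  rw [bro_eq, EB_eq]
  have hc : (bulk H B).card = Fintype.card B := by simp [bulk]
  have h := bro_main (bulk H B) (by rw [hc]; exact hB) k {Sum.inr b} (Finset.singleton_nonempty _)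
    (by rw [Finset.singleton_subset_iff]; exact (mem_bulk H B).2 ⟨b, rfl⟩)
  rw [uS_singleton, one_mul, hc] at h
  refine h.trans ?_
  have hN : (1 : ℝ) ≤ Fintype.card B := by exact_mod_cast hB
  refine mul_le_mul_of_nonneg_right ?_ (pow_nonneg ?_ _)
  · simp only [Finset.card_singleton, Nat.cast_one, div_one]
    nlinarith
  · rw [sub_nonneg, div_le_one (by linarith)]
    exact hN

theorem nrm_pow_le {G : Type} [Fintype G] [DecidableEq G] [Group G] (x : Alg G) (j : ℕ) :
    nrm (x ^ j) ≤ nrm x ^ j := by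
  induction j with
  | zero =>
    rw [pow_zero, pow_zero, ← pt_one, nrm_pt]
  | succ j ih =>
    rw [pow_succ, pow_succ]
    exact (nrm_mul_le _ _).trans (mul_le_mul_of_nonneg_right ih (nrm_nonneg _))

theorem red_thm : RedStatement := by
  intro H B _ _ _ _ ν β C ρ hβ hC hρ hν hcomm _ hbro t
  have h1 : Commute (β • bro H B) ν := (hcomm.symm).smul_left β
  have h2 : Commute (β • (1 : Alg (PV H B))) ν := (Commute.one_left ν).smul_left β
  rw [h1.add_pow, h2.add_pow, Finset.mul_sum, ← Finset.sum_sub_distrib]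
  refine (nrm_sum_le _ _).trans ?_
  have hR : C * (1 - β * (1 - ρ)) ^ t =
      ∑ m ∈ Finset.range (t + 1), C * ((β * ρ) ^ m * (1 - β) ^ (t - m) * (t.choose m : ℝ)) := by
    rw [← Finset.mul_sum, ← add_pow]
    congr 2
    ring
  rw [hR]
  refine Finset.sum_le_sum fun m _ => ?_
  have h3 : (β • bro H B) ^ m * ν ^ (t - m) * ((t.choose m : ℕ) : Alg (PV H B)) -
      EB H B * ((β • (1 : Alg (PV H B))) ^ m * ν ^ (t - m) * ((t.choose m : ℕ) : Alg (PV H B))) =
      ((t.choose m : ℝ) * β ^ m) • ((bro H B ^ m - EB H B) * ν ^ (t - m)) := by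
    rw [← nsmul_eq_mul', ← nsmul_eq_mul', smul_pow, smul_pow, one_pow, ← Nat.cast_smul_eq_nsmul ℝ,
      ← Nat.cast_smul_eq_nsmul ℝ]
    rw [smul_mul_assoc, smul_mul_assoc, one_mul, mul_smul_comm, mul_smul_comm, smul_smul,
      smul_smul, ← smul_sub, sub_mul]
  rw [h3, nrm_smul, abs_of_nonneg (by positivity)]
  have h4 : nrm ((bro H B ^ m - EB H B) * ν ^ (t - m)) ≤ C * ρ ^ m * (1 - β) ^ (t - m) := by
    refine (nrm_mul_le _ _).trans ?_
    refine mul_le_mul (hbro m) ?_ (nrm_nonneg _) (by positivity)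
    exact (nrm_pow_le _ _).trans (pow_le_pow_left₀ (nrm_nonneg _) hν _)
  refine (mul_le_mul_of_nonneg_left h4 (by positivity)).trans (le_of_eq ?_)
  rw [mul_pow]
  ring

end Pool.Agent.Helper8_CW
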