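import Pool.Agent.Helper91_CW.Mods
import Pool.Agent.Helper91_CW.Alg

set_option autoImplicit false
set_option linter.unusedSectionVars false
set_option linter.unusedSimpArgs false

/-!
# Expectation of the path coupling error (module EXP)
-/

namespace Pool.Agent.Helper8_CW

open Equiv Pool.Agent.Helper91_CW

section
variable {H : Type} [Fintype H] [DecidableEq H]

theorem Ex_zero' {M : Type} [AddCommMonoid M] [Module ℝ M] (p : Sy H → ℝ)
    (F : List (Sy H) → M) : Ex p 0 F = F [] := rfl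

theorem Ex_succ' {M : Type} [AddCommMonoid M] [Module ℝ M] (p : Sy H → ℝ) (t : ℕ)
    (F : List (Sy H) → M) : Ex p (t + 1) F = ∑ α, p α • Ex p t (fun ω => F (α :: ω)) := rfl

theorem Ex_mono (p : Sy H → ℝ) (hp : ∀ α, 0 ≤ p α) (t : ℕ) :
    ∀ F G : List (Sy H) → ℝ, (∀ ω, F ω ≤ G ω) → Ex p t F ≤ Ex p t G := by
  induction t with
  | zero => intro F G h; exact h []
  | succ t ih =>
    intro F G h
    rw [Ex_succ', Ex_succ']
    exact Finset.sum_le_sum fun α _ =>
      mul_le_mul_of_nonneg_left (ih _ _ fun ω => h (α :: ω)) (hp α)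

theorem Ex_add' {M : Type} [AddCommMonoid M] [Module ℝ M] (p : Sy H → ℝ) (t : ℕ) :
    ∀ F G : List (Sy H) → M, Ex p t (fun ω => F ω + G ω) = Ex p t F + Ex p t G := by
  induction t with
  | zero => intro F G; rfl
  | succ t ih =>
    intro F G
    simp only [Ex_succ', ih, smul_add, Finset.sum_add_distrib]

theorem Ex_sub' {M : Type} [AddCommGroup M] [Module ℝ M] (p : Sy H → ℝ) (t : ℕ) :
    ∀ F G : List (Sy H) → M, Ex p t (fun ω => F ω - G ω) = Ex p t F - Ex p t G := by
  induction t with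
  | zero => intro F G; rfl
  | succ t ih =>
    intro F G
    simp only [Ex_succ', ih, smul_sub, Finset.sum_sub_distrib]

theorem Ex_smul' {M : Type} [AddCommMonoid M] [Module ℝ M] (p : Sy H → ℝ) (c : ℝ) (t : ℕ) :
    ∀ F : List (Sy H) → M, Ex p t (fun ω => c • F ω) = c • Ex p t F := by
  induction t with
  | zero => intro F; rfl
  | succ t ih =>
    intro F
    simp only [Ex_succ', ih, Finset.smul_sum]
    exact Finset.sum_congr rfl fun α _ => smul_comm _ _ _

theorem Ex_zero_fun {M : Type} [AddCommMonoid M] [Module ℝ M] (p : Sy H → ℝ) (t : ℕ) :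
    Ex p t (fun _ : List (Sy H) => (0 : M)) = 0 := by
  induction t with
  | zero => rfl
  | succ t ih => simp [Ex_succ', ih]

theorem Ex_sum' {M ι : Type} [AddCommMonoid M] [Module ℝ M] (p : Sy H → ℝ) (t : ℕ)
    (s : Finset ι) (F : ι → List (Sy H) → M) :
    Ex p t (fun ω => ∑ i ∈ s, F i ω) = ∑ i ∈ s, Ex p t (F i) := by
  classical
  induction s using Finset.induction_on with
  | empty => simpa using Ex_zero_fun p t
  | insert a s ha ih =>
    rw [Finset.sum_insert ha, ← ih, ← Ex_add']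
    congr 1
    funext ω
    rw [Finset.sum_insert ha]

/-! ### The one-card kernel -/

/-- The draw rate at `v`. -/
def dr (p : Sy H → ℝ) (v : H) : ℝ := p (some (Sum.inr v))

/-- The letter weights of exchanges. -/
def ex2 (p : Sy H → ℝ) (a b : H) : ℝ := p (some (Sum.inl (a, b)))

theorem sum_Sy {M : Type*} [AddCommMonoid M] (f : Sy H → M) :
    ∑ α, f α = f none + ((∑ ab : H × H, f (some (Sum.inl ab))) + ∑ v, f (some (Sum.inr v))) := by
  rw [Fintype.sum_option, Fintype.sum_sum_type]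

theorem Kop_eq (p : Sy H → ℝ) (f : H → ℝ) (x : H) :
    Kop p f x = p none * f x + ((∑ ab : H × H, p (some (Sum.inl ab)) * f (swap ab.1 ab.2 x)) +
      ∑ v, p (some (Sum.inr v)) * (if x = v then 0 else f x)) := by
  unfold Kop
  rw [sum_Sy]
  congr 2
  refine Finset.sum_congr rfl fun v _ => ?_
  simp only [act]
  split_ifs <;> rfl

theorem Kop_add (p : Sy H → ℝ) (f g : H → ℝ) : Kop p (f + g) = Kop p f + Kop p g := by
  funext x
  simp only [Kop, Pi.add_apply, ← Finset.sum_add_distrib]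
  refine Finset.sum_congr rfl fun α _ => ?_
  cases act α x <;> simp [mul_add]

theorem Kop_smul (p : Sy H → ℝ) (c : ℝ) (f : H → ℝ) : Kop p (c • f) = c • Kop p f := by
  funext x
  simp only [Kop, Pi.smul_apply, smul_eq_mul, Finset.mul_sum]
  refine Finset.sum_congr rfl fun α _ => ?_
  cases act α x <;> simp
  ring

theorem Kop_zero (p : Sy H → ℝ) : Kop p (0 : H → ℝ) = 0 := by
  funext x
  simp only [Kop]
  refine Finset.sum_eq_zero fun α _ => ?_
  cases act α x <;> simp

theorem Kop_sum (p : Sy H → ℝ) {ι : Type} (s : Finset ι) (f : ι → H → ℝ) :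
    Kop p (∑ i ∈ s, f i) = ∑ i ∈ s, Kop p (f i) := by
  classical
  induction s using Finset.induction_on with
  | empty => simp [Kop_zero]
  | insert a s ha ih => rw [Finset.sum_insert ha, Finset.sum_insert ha, Kop_add, ih]

theorem Kop_mono (p : Sy H → ℝ) (hp : ∀ α, 0 ≤ p α) {f g : H → ℝ} (h : ∀ x, f x ≤ g x) (x : H) :
    Kop p f x ≤ Kop p g x := by
  unfold Kop
  refine Finset.sum_le_sum fun α _ => mul_le_mul_of_nonneg_left ?_ (hp α)
  cases act α x with
  | none => simp
  | some y => exact h y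

theorem Kop_nonneg (p : Sy H → ℝ) (hp : ∀ α, 0 ≤ p α) {f : H → ℝ} (h : ∀ x, 0 ≤ f x) (x : H) :
    0 ≤ Kop p f x := by
  have := Kop_mono p hp (f := 0) (g := f) h x
  rwa [Kop_zero] at this

theorem sum_Kop (p : Sy H → ℝ) (f : H → ℝ) :
    ∑ x, Kop p f x = (∑ α, p α) * (∑ x, f x) - ∑ v, dr p v * f v := by
  simp only [Kop_eq]
  rw [sum_Sy, Finset.sum_add_distrib, Finset.sum_add_distrib, ← Finset.mul_sum]
  rw [Finset.sum_comm (s := Finset.univ) (t := Finset.univ)
    (f := fun x (ab : H × H) => p (some (Sum.inl ab)) * f (swap ab.1 ab.2 x))]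
  rw [Finset.sum_comm (s := Finset.univ) (t := Finset.univ)
    (f := fun x (v : H) => p (some (Sum.inr v)) * (if x = v then 0 else f x))]
  have h1 : ∀ ab : H × H, ∑ x, p (some (Sum.inl ab)) * f (swap ab.1 ab.2 x) =
      p (some (Sum.inl ab)) * ∑ x, f x := by
    intro ab
    rw [← Finset.mul_sum]
    congr 1
    exact Equiv.sum_comp (swap ab.1 ab.2) f
  have h2 : ∀ v : H, ∑ x, p (some (Sum.inr v)) * (if x = v then 0 else f x) =
      p (some (Sum.inr v)) * (∑ x, f x) - dr p v * f v := by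
    intro v
    rw [← Finset.mul_sum, dr, ← mul_sub]
    congr 1
    rw [eq_sub_iff_add_eq]
    have : f v = ∑ x, if x = v then f x else 0 := by simp
    conv_lhs => rw [this]
    rw [← Finset.sum_add_distrib]
    refine Finset.sum_congr rfl fun x _ => ?_
    split_ifs <;> simp
  simp only [h1, h2]
  rw [← Finset.sum_mul, Finset.sum_sub_distrib, ← Finset.sum_mul]
  ring

theorem Kop_one_le (p : Sy H → ℝ) (hp : ∀ α, 0 ≤ p α) (hs : ∑ α, p α ≤ 1) (x : H) :
    Kop p (fun _ => 1) x ≤ 1 := by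
  refine le_trans ?_ hs
  unfold Kop
  refine Finset.sum_le_sum fun α _ => ?_
  cases act α x with
  | none => simpa using hp α
  | some y => simp

theorem Kit_zero (p : Sy H → ℝ) (f : H → ℝ) : Kit p 0 f = f := rfl

theorem Kit_succ (p : Sy H → ℝ) (t : ℕ) (f : H → ℝ) : Kit p (t + 1) f = Kop p (Kit p t f) := by
  unfold Kit
  rw [Function.iterate_succ_apply']

theorem Kit_one_nonneg (p : Sy H → ℝ) (hp : ∀ α, 0 ≤ p α) (t : ℕ) (x : H) :
    0 ≤ Kit p t (fun _ => 1) x := by
  induction t generalizing x with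
  | zero => simp [Kit_zero]
  | succ t ih => rw [Kit_succ]; exact Kop_nonneg p hp ih x

theorem Mt_nonneg (p : Sy H → ℝ) (hp : ∀ α, 0 ≤ p α) (t : ℕ) : 0 ≤ Mt p t :=
  Finset.sum_nonneg fun x _ => Kit_one_nonneg p hp t x

/-- Expectation of the frozen indicator. -/
theorem Ex_frozen (p : Sy H → ℝ) (t : ℕ) : ∀ x : H,
    Ex p t (fun ω => if tr ω x = none then (0 : ℝ) else 1) = Kit p t (fun _ => 1) x := by
  induction t with
  | zero => intro x; simp [Ex_zero', Kit_zero, tr]
  | succ t ih =>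
    intro x
    rw [Ex_succ', Kit_succ]
    unfold Kop
    refine Finset.sum_congr rfl fun α _ => ?_
    rw [smul_eq_mul]
    congr 1
    rcases h : act α x with _ | y
    · have e : ∀ ω : List (Sy H), tr (α :: ω) x = none := by
        intro ω
        simp [tr, h]
      simp only [e]
      simpa using Ex_zero_fun (M := ℝ) p t
    · have e : ∀ ω : List (Sy H), tr (α :: ω) x = tr ω y := by
        intro ω
        simp [tr, h]
      simp only [e]
      simpa using ih y

/-- Expectation of the path coupling weights. -/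
noncomputable def Lbar (N : ℝ) (p : Sy H → ℝ) (t : ℕ) (x : H) : ℝ := Ex p t (fun ω => Lf N ω x)

theorem Lbar_zero (N : ℝ) (p : Sy H → ℝ) (x : H) : Lbar N p 0 x = 1 := rfl

theorem Lf_cons (N : ℝ) (α : Sy H) (ω : List (Sy H)) (x : H) :
    Lf N (α :: ω) x = (act α x).elim 0 (Lf N ω) +
      N⁻¹ * (match α with | some (Sum.inr v) => Lf N ω v | _ => 0) := by
  rcases α with _ | ⟨⟨a, b⟩ | v⟩
  · simp [Lf, act]
  · simp [Lf, act]
  · simp only [Lf, act]
    split_ifs <;> rfl

theorem Lbar_succ (N : ℝ) (p : Sy H → ℝ) (t : ℕ) (x : H) :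
    Lbar N p (t + 1) x = Kop p (Lbar N p t) x + N⁻¹ * ∑ v, dr p v * Lbar N p t v := by
  unfold Lbar
  rw [Ex_succ']
  have h1 : ∀ α : Sy H, Ex p t (fun ω => Lf N (α :: ω) x) =
      (act α x).elim 0 (fun y => Ex p t (fun ω => Lf N ω y)) +
      N⁻¹ * (match α with | some (Sum.inr v) => Ex p t (fun ω => Lf N ω v) | _ => 0) := by
    intro α
    have e : (fun ω => Lf N (α :: ω) x) = fun ω => (act α x).elim 0 (Lf N ω) +
      N⁻¹ • (match α with | some (Sum.inr v) => Lf N ω v | _ => 0) := by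
      funext ω
      exact Lf_cons N α ω x
    rw [e, Ex_add', Ex_smul', smul_eq_mul]
    congr 1
    · cases act α x with
      | none => exact Ex_zero_fun p t
      | some y => rfl
    · congr 1
      rcases α with _ | ⟨⟨a, b⟩ | v⟩
      · exact Ex_zero_fun p t
      · exact Ex_zero_fun p t
      · rfl
  simp only [h1, smul_eq_mul, mul_add, Finset.sum_add_distrib]
  congr 1
  rw [sum_Sy]
  simp only [mul_zero, Finset.sum_const_zero, zero_add, Finset.mul_sum, dr]
  refine Finset.sum_congr rfl fun v _ => ?_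
  ring

theorem Lf_nonneg (N : ℝ) (hN : 0 ≤ N) : ∀ (ω : List (Sy H)) (x : H), 0 ≤ Lf N ω x
  | [], x => by simp [Lf]
  | none :: ω, x => by simpa [Lf] using Lf_nonneg N hN ω x
  | some (Sum.inl (a, b)) :: ω, x => by simpa [Lf] using Lf_nonneg N hN ω _
  | some (Sum.inr v) :: ω, x => by
    simp only [Lf]
    have h1 := Lf_nonneg N hN ω x
    have h2 := Lf_nonneg N hN ω v
    have h3 : 0 ≤ N⁻¹ := inv_nonneg.2 hN
    split_ifs
    · positivity
    · positivity

/-- Frozen cards have weight at least one. -/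
theorem one_le_Lf (N : ℝ) (hN : 0 ≤ N) : ∀ (ω : List (Sy H)) (x : H), tr ω x ≠ none →
    1 ≤ Lf N ω x
  | [], x, _ => by simp [Lf]
  | none :: ω, x, h => by
    simp only [Lf]
    exact one_le_Lf N hN ω x (by simpa [tr, act] using h)
  | some (Sum.inl (a, b)) :: ω, x, h => by
    simp only [Lf]
    exact one_le_Lf N hN ω _ (by simpa [tr, act] using h)
  | some (Sum.inr v) :: ω, x, h => by
    simp only [Lf]
    by_cases hx : x = v
    · exact absurd (by simp [tr, act, hx]) h
    · rw [if_neg hx]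
      have h1 := one_le_Lf N hN ω x (by simpa [tr, act, hx] using h)
      have h2 := Lf_nonneg N hN ω v
      have h3 : 0 ≤ N⁻¹ := inv_nonneg.2 hN
      nlinarith [mul_nonneg h3 h2]

/-- The excess. -/
noncomputable def Rb (N : ℝ) (p : Sy H → ℝ) (t : ℕ) (x : H) : ℝ :=
  Lbar N p t x - Kit p t (fun _ => 1) x

/-- The inflow. -/
noncomputable def cb (N : ℝ) (p : Sy H → ℝ) (t : ℕ) : ℝ := N⁻¹ * ∑ v, dr p v * Lbar N p t v

theorem Rb_zero (N : ℝ) (p : Sy H → ℝ) (x : H) : Rb N p 0 x = 0 := by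
  simp [Rb, Lbar_zero, Kit_zero]

theorem Kop_sub (p : Sy H → ℝ) (f g : H → ℝ) : Kop p (f - g) = Kop p f - Kop p g := by
  have := Kop_add p (f - g) g
  rw [sub_add_cancel] at this
  rw [this, add_sub_cancel_right]

theorem Rb_succ (N : ℝ) (p : Sy H → ℝ) (t : ℕ) (x : H) :
    Rb N p (t + 1) x = Kop p (Rb N p t) x + cb N p t := by
  have h : Rb N p t = Lbar N p t - Kit p t (fun _ => 1) := rfl
  rw [h, Kop_sub]
  unfold Rb cb
  rw [Lbar_succ, Kit_succ, Pi.sub_apply]
  ring

theorem Rb_eq (N : ℝ) (p : Sy H → ℝ) (t : ℕ) :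
    Rb N p t = ∑ s ∈ Finset.range t, cb N p s • Kit p (t - 1 - s) (fun _ => 1) := by
  induction t with
  | zero => funext x; simp [Rb_zero]
  | succ t ih =>
    funext x
    rw [Rb_succ, ih, Kop_sum, Finset.sum_apply, Finset.sum_range_succ, Pi.add_apply,
      Finset.sum_apply]
    congr 1
    · refine Finset.sum_congr rfl fun s hs => ?_
      have hs' := Finset.mem_range.1 hs
      rw [Kop_smul, ← Kit_succ]
      have : t - 1 - s + 1 = t + 1 - 1 - s := by omega
      rw [this]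
    · simp [Kit_zero]

theorem main_exp (N : ℕ) (hN : 2 * Fintype.card H ≤ N) (hN1 : 1 ≤ N) (p : Sy H → ℝ)
    (hp : ∀ α, 0 ≤ p α) (hs : ∑ α, p α ≤ 1) (t : ℕ) :
    Ex p t (fun ω => ∑ x : H, if tr ω x = none then Lf (N : ℝ) ω x else 0) ≤
        (N : ℝ)⁻¹ * ∑ s ∈ Finset.range t,
          (∑ v, p (some (Sum.inr v)) * Kit p s (fun _ => 1) v) * Mt p (t - 1 - s) +
        2 * (Fintype.card H : ℝ) * (N : ℝ)⁻¹ ^ 2 * (∑ v, p (some (Sum.inr v))) *
          ∑ s ∈ Finset.range t, Mt p (t - 1 - s) := by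
  have hN0 : (0 : ℝ) < N := by exact_mod_cast hN1
  have hNi : (0 : ℝ) < (N : ℝ)⁻¹ := inv_pos.2 hN0
  have hdr : ∀ v, 0 ≤ dr p v := fun v => hp _
  have hL : ∀ s x, 0 ≤ Lbar (N : ℝ) p s x := fun s x => by
    have := Ex_mono p hp s (fun _ => 0) (fun ω => Lf (N : ℝ) ω x)
      (fun ω => Lf_nonneg _ hN0.le ω x)
    rwa [Ex_zero_fun] at this
  have hc : ∀ s, 0 ≤ cb (N : ℝ) p s := fun s =>
    mul_nonneg hNi.le (Finset.sum_nonneg fun v _ => mul_nonneg (hdr v) (hL s v))
  have hR : ∀ s x, 0 ≤ Rb (N : ℝ) p s x := by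
    intro s
    induction s with
    | zero => intro x; rw [Rb_zero]
    | succ s ih => intro x; rw [Rb_succ]; exact add_nonneg (Kop_nonneg p hp ih x) (hc s)
  -- total excess plus total mass
  have htot : ∀ s, (∑ x, Lbar (N : ℝ) p s x) + ((N : ℝ) - Fintype.card H) *
      ∑ u ∈ Finset.range s, cb (N : ℝ) p u ≤ Fintype.card H := by
    intro s
    induction s with
    | zero => simp [Lbar_zero]
    | succ s ih =>
      rw [Finset.sum_range_succ]
      have h1 : ∑ x, Lbar (N : ℝ) p (s + 1) x ≤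
          (∑ x, Lbar (N : ℝ) p s x) - N * cb (N : ℝ) p s + Fintype.card H * cb (N : ℝ) p s := by
        simp only [Lbar_succ]
        rw [Finset.sum_add_distrib, sum_Kop]
        have h2 : ∑ v, dr p v * Lbar (N : ℝ) p s v = N * cb (N : ℝ) p s := by
          unfold cb
          rw [← mul_assoc, mul_inv_cancel₀ hN0.ne', one_mul]
        rw [Finset.sum_const, Finset.card_univ, nsmul_eq_mul]
        have h3 : (N : ℝ)⁻¹ * ∑ v, dr p v * Lbar (N : ℝ) p s v = cb (N : ℝ) p s := rfl
        rw [h3, h2]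
        have h4 : (∑ α, p α) * (∑ x, Lbar (N : ℝ) p s x) ≤ ∑ x, Lbar (N : ℝ) p s x := by
          have h5 : 0 ≤ ∑ x, Lbar (N : ℝ) p s x := Finset.sum_nonneg fun x _ => hL s x
          nlinarith
        linarith
      nlinarith
  have hT : ∀ s, ∑ u ∈ Finset.range s, cb (N : ℝ) p u ≤ 2 * Fintype.card H * (N : ℝ)⁻¹ := by
    intro s
    have h1 := htot s
    have h2 : 0 ≤ ∑ x, Lbar (N : ℝ) p s x := Finset.sum_nonneg fun x _ => hL s x
    have h3 : 0 ≤ ∑ u ∈ Finset.range s, cb (N : ℝ) p u := Finset.sum_nonneg fun u _ => hc u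
    have h4 : 2 * (Fintype.card H : ℝ) ≤ N := by exact_mod_cast hN
    have h5 : (N : ℝ) / 2 * ∑ u ∈ Finset.range s, cb (N : ℝ) p u ≤ Fintype.card H := by
      have h6 : (N : ℝ) / 2 * ∑ u ∈ Finset.range s, cb (N : ℝ) p u ≤
          ((N : ℝ) - Fintype.card H) * ∑ u ∈ Finset.range s, cb (N : ℝ) p u :=
        mul_le_mul_of_nonneg_right (by linarith) h3
      linarith
    rw [← div_eq_mul_inv, le_div_iff₀ hN0]
    linarith
  have hRT : ∀ s x, Rb (N : ℝ) p s x ≤ ∑ u ∈ Finset.range s, cb (N : ℝ) p u := by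
    intro s
    induction s with
    | zero => intro x; simp [Rb_zero]
    | succ s ih =>
      intro x
      rw [Rb_succ, Finset.sum_range_succ]
      refine add_le_add ?_ le_rfl
      set T := ∑ u ∈ Finset.range s, cb (N : ℝ) p u with hTd
      have hT0 : 0 ≤ T := Finset.sum_nonneg fun u _ => hc u
      have h1 := Kop_mono p hp (f := Rb (N : ℝ) p s) (g := T • (fun _ => (1 : ℝ)))
        (fun y => by simpa using ih y) x
      rw [Kop_smul] at h1
      refine h1.trans ?_
      have h2 := Kop_one_le p hp hs x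
      simp only [Pi.smul_apply, smul_eq_mul]
      nlinarith
  have hcb : ∀ s, cb (N : ℝ) p s ≤ (N : ℝ)⁻¹ * (∑ v, dr p v * Kit p s (fun _ => 1) v) +
      2 * (Fintype.card H : ℝ) * (N : ℝ)⁻¹ ^ 2 * ∑ v, dr p v := by
    intro s
    have h1 : ∑ v, dr p v * Lbar (N : ℝ) p s v ≤ (∑ v, dr p v * Kit p s (fun _ => 1) v) +
        (2 * Fintype.card H * (N : ℝ)⁻¹) * ∑ v, dr p v := by
      rw [Finset.mul_sum, ← Finset.sum_add_distrib]
      refine Finset.sum_le_sum fun v _ => ?_
      have h2 := (hRT s v).trans (hT s)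
      unfold Rb at h2
      have h3 := mul_le_mul_of_nonneg_left h2 (hdr v)
      nlinarith
    unfold cb
    refine (mul_le_mul_of_nonneg_left h1 hNi.le).trans (le_of_eq ?_)
    ring
  -- the left-hand side
  have hle : Ex p t (fun ω => ∑ x : H, if tr ω x = none then Lf (N : ℝ) ω x else 0) ≤
      ∑ x, Rb (N : ℝ) p t x := by
    have h1 : ∀ ω : List (Sy H), (∑ x : H, if tr ω x = none then Lf (N : ℝ) ω x else 0) ≤
        ∑ x : H, (Lf (N : ℝ) ω x - if tr ω x = none then (0 : ℝ) else 1) := by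
      intro ω
      refine Finset.sum_le_sum fun x _ => ?_
      by_cases h : tr ω x = none
      · simp [h]
      · rw [if_neg h, if_neg h]
        linarith [one_le_Lf (N : ℝ) hN0.le ω x h]
    refine (Ex_mono p hp t _ _ h1).trans (le_of_eq ?_)
    rw [Ex_sum']
    refine Finset.sum_congr rfl fun x _ => ?_
    rw [Ex_sub', Ex_frozen]
    rfl
  refine hle.trans ?_
  have hsumR : ∑ x, Rb (N : ℝ) p t x = ∑ s ∈ Finset.range t, cb (N : ℝ) p s * Mt p (t - 1 - s) := by
    rw [Rb_eq]
    simp only [Finset.sum_apply, Pi.smul_apply, smul_eq_mul]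
    rw [Finset.sum_comm]
    refine Finset.sum_congr rfl fun s _ => ?_
    rw [← Finset.mul_sum]
    rfl
  rw [hsumR]
  have h6 : ∑ s ∈ Finset.range t, cb (N : ℝ) p s * Mt p (t - 1 - s) ≤
      ∑ s ∈ Finset.range t, ((N : ℝ)⁻¹ * (∑ v, dr p v * Kit p s (fun _ => 1) v) +
      2 * (Fintype.card H : ℝ) * (N : ℝ)⁻¹ ^ 2 * ∑ v, dr p v) * Mt p (t - 1 - s) :=
    Finset.sum_le_sum fun s _ => mul_le_mul_of_nonneg_right (hcb s) (Mt_nonneg p hp _)
  refine h6.trans (le_of_eq ?_)
  simp only [add_mul, Finset.sum_add_distrib, mul_assoc, ← Finset.mul_sum]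
  rfl

end

theorem exp_thm : ExpStatement := by
  intro H _ _ N hN hN1 p hp hs t
  exact main_exp N hN hN1 p hp hs t

end Pool.Agent.Helper8_CW
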